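import Pool.Agent.H94.M4.Targets
import Pool.Agent.H22.G.TargetsH

/-!
# Row SUQ of the board `g4_modules` (MP_ee74d2_an): supremum of sums of wave packets
-/

set_option autoImplicit false

namespace Pool.Agent.H33.M4.SUQ

open MeasureTheory Set Pool.Agent.H83.G Pool.Agent.H94.M4
open scoped ENNReal NNReal RealInnerProductSpace

private theorem Rg_half {m : ℕ} {κ c : ℝ} (h : κ ≤ 1 / 2) (hc : 0 ≤ c) {ζ : Z m}
    (hζ : ζ ∈ Rg m κ c) : ζ ∈ Rg m (1 / 2) c := by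
  obtain ⟨h1, h2, h3, h4⟩ := hζ
  have h0 : 0 ≤ ζ.1 := by linarith
  refine ⟨by linarith, by linarith, h3.trans ?_, h4.trans ?_⟩
  · exact mul_le_mul_of_nonneg_right (by linarith) h0
  · exact mul_le_mul_of_nonneg_right (by linarith) hc

private theorem wt_le_one {m : ℕ} (N : ℕ) (z : Z m) : wt N z ≤ 1 := by
  unfold wt
  refine inv_le_one_of_one_le₀ (one_le_pow₀ ?_)
  have := norm_nonneg z
  linarith

private theorem wt_nonneg {m : ℕ} (N : ℕ) (z : Z m) : 0 ≤ wt N z := by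
  unfold wt
  positivity

theorem pf_SUQ (hPTW : T_PTW) (hTLS : T_TLS) (hAMU : T_AMU) (hPUS : T_PUS)
    (hHG2 : Pool.Agent.H22.G.T_HG2) : T_SUQ := by
  classical
  intro m L N β Ψ ψ δ hβ hΨ hδ hδ' hN
  obtain ⟨Cf, hCf, hfar⟩ := hTLS m L N β Ψ ψ δ 1 hβ hΨ hδ (by linarith) hN
  obtain ⟨C1, hC1, hptw⟩ := hPTW m N 0 β Ψ ψ δ hβ hΨ hδ.le
  obtain ⟨C2, hC2, hamu⟩ := hAMU m L N β δ hβ hδ.le hN
  obtain ⟨C3, hC3, hhg⟩ := hHG2 m
  obtain ⟨_, _, C4, hC4, hks, _, _⟩ := hPUS m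
  have hC3' : 0 < C3 := by linarith
  refine ⟨Cf + C1 * C2 * C3 * C4 + 1, by
    have : 0 ≤ C1 * C2 * C3 * C4 := by positivity
    linarith, ?_⟩
  intro κ R A G S z hκ hκ' hR hA hG hS
  have hR0 : 0 < R := by linarith
  have hs0 : 0 < sR R := by unfold sR; positivity
  have hs1 : sR R ≤ 1 := by
    unfold sR
    refine inv_le_one_of_one_le₀ ?_
    rw [Real.one_le_sqrt]
    exact hR
  have hGR : ∀ ζ, G ζ ≠ 0 → ζ ∈ Rg m (1 / 2) R⁻¹ := fun ζ hζ =>
    Rg_half (by linarith) (by positivity) (hG.2.1 ζ hζ)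
  rw [← Finset.sum_filter_add_sum_filter_not S (fun W => near R δ W z)]
  refine (norm_add_le _ _).trans ?_
  -- far planks
  have h1 : ‖∑ W ∈ S.filter (fun W => ¬ near R δ W z), Fp β ψ R δ G W z‖ ≤ Cf * A := by
    refine (norm_sum_le _ _).trans ?_
    have h2 := (hfar κ R A G (S.filter (fun W => ¬ near R δ W z)) z hκ (by linarith) hR hA hG
      (fun W hW => hS W (Finset.mem_filter.1 hW).1)).1 (fun W hW => (Finset.mem_filter.1 hW).2)
    refine h2.trans ?_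
    have h3 : R ^ (-1 : ℝ) ≤ 1 := Real.rpow_le_one_of_one_le_of_nonpos hR (by norm_num)
    exact mul_le_of_le_one_right (by positivity) h3
  -- near planks
  set Sn := S.filter (fun W => near R δ W z) with hSn
  have hterm : ∀ W ∈ Sn, ‖Fp β ψ R δ G W z‖ ≤
      C1 * R ^ (δ * ((m : ℝ) + 2) / 2) * (C2 * A) := by
    intro W _
    refine (hptw R G W z hR hG.1 hGR).trans ?_
    have h2 := (hamu κ R A G W hκ (by linarith) hR hA hG).1
    have h3 : 0 ≤ al N β R δ G W := Real.sqrt_nonneg _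
    calc C1 * R ^ (δ * ((m : ℝ) + 2) / 2) * al N β R δ G W * wt 0 (fc R δ W.1 z - zc W.2)
        ≤ C1 * R ^ (δ * ((m : ℝ) + 2) / 2) * al N β R δ G W :=
          mul_le_of_le_one_right (by positivity) (wt_le_one _ _)
      _ ≤ C1 * R ^ (δ * ((m : ℝ) + 2) / 2) * (C2 * A) := by gcongr
  have hcard : (Sn.card : ℝ) ≤ (C4 * R ^ ((m : ℝ) / 2)) * (C3 * R ^ (((m : ℝ) + 2) * δ)) := by
    have h2 : Sn.card = ∑ k ∈ Ks m (sR R), (Sn.filter (fun W => W.1 = k)).card :=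
      Finset.card_eq_sum_card_fiberwise fun W hW => hS W (Finset.mem_filter.1 hW).1
    rw [h2]
    push_cast
    have h3 : ∀ k ∈ Ks m (sR R), ((Sn.filter (fun W => W.1 = k)).card : ℝ) ≤
        C3 * R ^ (((m : ℝ) + 2) * δ) := by
      intro k _
      refine (hhg R δ hR hδ.le).1 k z _ fun W hW => ?_
      have h4 := Finset.mem_filter.1 hW
      exact ⟨h4.2, (Finset.mem_filter.1 h4.1).2⟩
    refine (Finset.sum_le_sum h3).trans ?_
    rw [Finset.sum_const, nsmul_eq_mul]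
    refine mul_le_mul_of_nonneg_right ?_ (by positivity)
    refine (hks (sR R) hs0 hs1).trans (le_of_eq ?_)
    unfold sR
    rw [inv_inv, Real.sqrt_eq_rpow, ← Real.rpow_natCast, ← Real.rpow_mul hR0.le]
    congr 2
    ring
  have h5 : ‖∑ W ∈ Sn, Fp β ψ R δ G W z‖ ≤
      (C1 * C2 * C3 * C4) * (R ^ (lo m * δ) * A * R ^ ((m : ℝ) / 2)) := by
    refine (norm_sum_le _ _).trans ((Finset.sum_le_sum hterm).trans ?_)
    rw [Finset.sum_const, nsmul_eq_mul]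
    have h6 : R ^ (((m : ℝ) + 2) * δ) * R ^ (δ * ((m : ℝ) + 2) / 2) ≤ R ^ (lo m * δ) := by
      rw [← Real.rpow_add hR0]
      refine Real.rpow_le_rpow_of_exponent_le hR ?_
      unfold lo
      have : 0 ≤ ((m : ℝ) + 2) * δ := by positivity
      nlinarith
    calc (Sn.card : ℝ) * (C1 * R ^ (δ * ((m : ℝ) + 2) / 2) * (C2 * A))
        ≤ ((C4 * R ^ ((m : ℝ) / 2)) * (C3 * R ^ (((m : ℝ) + 2) * δ))) *
          (C1 * R ^ (δ * ((m : ℝ) + 2) / 2) * (C2 * A)) := by gcongr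
      _ = (C1 * C2 * C3 * C4) * ((R ^ (((m : ℝ) + 2) * δ) * R ^ (δ * ((m : ℝ) + 2) / 2)) *
          A * R ^ ((m : ℝ) / 2)) := by ring
      _ ≤ _ := by gcongr
  have h7 : 1 ≤ R ^ (lo m * δ) := Real.one_le_rpow hR (by unfold lo; positivity)
  have h8 : 1 ≤ R ^ ((m : ℝ) / 2) := Real.one_le_rpow hR (by positivity)
  have h9 : A ≤ R ^ (lo m * δ) * A * R ^ ((m : ℝ) / 2) := by
    calc A = 1 * A * 1 := by ring
      _ ≤ R ^ (lo m * δ) * A * R ^ ((m : ℝ) / 2) := by gcongr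
  have h10 : Cf * A ≤ Cf * (R ^ (lo m * δ) * A * R ^ ((m : ℝ) / 2)) := by gcongr
  have h11 : 0 ≤ R ^ (lo m * δ) * A * R ^ ((m : ℝ) / 2) := by positivity
  calc _ ≤ (C1 * C2 * C3 * C4) * (R ^ (lo m * δ) * A * R ^ ((m : ℝ) / 2)) +
        Cf * (R ^ (lo m * δ) * A * R ^ ((m : ℝ) / 2)) := add_le_add h5 (h1.trans h10)
    _ ≤ (Cf + C1 * C2 * C3 * C4 + 1) * (R ^ (lo m * δ) * A * R ^ ((m : ℝ) / 2)) := by
        linarith
    _ = _ := by ring

end Pool.Agent.H33.M4.SUQ
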